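import Mathlib

set_option autoImplicit false

/-!
# Finite presentations as inputs of algorithms
-/

namespace Pool.Agent.H69.Metab

/-- A finite presentation, encoded by the number `n` of generators `x_0, …, x_{n-1}` and the list of
relators; a relator is the list of its letters, `(i, true)` standing for `x_i` and `(i, false)` for
`x_i⁻¹`. -/
abbrev Pres : Type := ℕ × List (List (ℕ × Bool))

/-- The element of the free group on `x_0, …, x_{n-1}` given by a list of letters (letters with
index at least `n` are skipped). -/
def word (n : ℕ) (w : List (ℕ × Bool)) : FreeGroup (Fin n) :=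
  FreeGroup.mk (w.filterMap fun l => if h : l.1 < n then some (⟨l.1, h⟩, l.2) else none)

/-- The relators of a finite presentation. -/
def relators (P : Pres) : Set (FreeGroup (Fin P.1)) := {r | ∃ w ∈ P.2, r = word P.1 w}

/-- The group defined by a finite presentation. -/
abbrev Grp (P : Pres) : Type := PresentedGroup (relators P)

/-- The commutator subgroup is abelian. -/
def IsMetabelian (G : Type*) [Group G] : Prop := derivedSeries G 2 = ⊥

/-- The promise problem is solved by the partial recursive function `f`: on every finite presentation
of a solvable group it halts and reports whether the group is metabelian. -/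
def Decides (f : Pres →. Bool) : Prop :=
  ∀ P : Pres, Group.IsSolvable (Grp P) → ∃ b ∈ f P, (b = true ↔ IsMetabelian (Grp P))

/-- Undecidability from a reduction. -/
theorem undecidable_of_reduction (S : ℕ → Prop) (hS : ¬ ComputablePred S) (c : ℕ → Pres)
    (hc : Computable c) (hsolv : ∀ n, Group.IsSolvable (Grp (c n)))
    (hmet : ∀ n, IsMetabelian (Grp (c n)) ↔ S n) :
    ¬ ∃ f : Pres →. Bool, Partrec f ∧ Decides f := by
  classical
  rintro ⟨f, hf, hd⟩
  apply hS
  have h1 : ∀ n, ∃ b ∈ f (c n), (b = true ↔ IsMetabelian (Grp (c n))) := fun n => hd (c n) (hsolv n)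
  choose g hg hg' using h1
  have h2 : Partrec fun n => f (c n) := hf.comp hc
  have h3 : Computable g := by
    have h4 : (fun n => f (c n)) = fun n => Part.some (g n) := by
      funext n
      exact Part.eq_some_iff.2 (hg n)
    rw [h4] at h2
    exact h2
  refine ComputablePred.computable_iff.2 ⟨g, h3, ?_⟩
  funext n
  apply propext
  rw [← hmet n, ← hg' n]

end Pool.Agent.H69.Metab
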